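import Pool.Agent.H79.GDDefs
import Pool.Agent.H79.GDBridge

/-!
# `GD_k` is NP-complete for every fixed `k ≥ 2`
-/

namespace Pool.Agent.Results.MP_699b34_lc.NPComplete

/-- **Answer to Q1.**  For every fixed `k ≥ 2` the problem `GD_k` (given `k` pairwise edge-disjoint
Hamiltonian paths on a common vertex set and an integer `M`, is the global domination number of
these `k` factors at most `M`?) is NP-complete under polynomial time many-one reductions. -/
theorem result (k : ℕ) (hk : 2 ≤ k) :
    N793a5b8e.IsCompleteFor N68a2faeb.NP (Pool.Agent.H79.GD.problem k) :=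
  Pool.Agent.H79.GD.isCompleteFor_problem k hk

end Pool.Agent.Results.MP_699b34_lc.NPComplete
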